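import Mathlib
import Pool.Agent.H669R3.AccC

/-!
# Explicit hitting sets for determinants with accretive or diagonally dominant coefficients

A matrix polynomial `A(x) = ∑ k, g_k(x) A_k` has real coefficient polynomials `g_k` of degree at
most `D` which are positive at the points with positive coordinates, and complex `n × n` matrices
`A_k` which are accretive (`Re (v^* P A_k Q v) ≥ 0`) in unknown coordinates `P, Q`.  The core is the
common kernel of the hermitian parts of the `P A_k Q`, and `c` is the dimension of the core modulo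
the vectors of the core which are killed by the matrices of all non-constant `g_k`.  We show that
`det A(x)` is tested by the `binom (m + D c) (D c)` integer points `1 + z`, `z ∈ ℕ^m`,
`∑ z_i ≤ D c`, whatever the size `n` of the matrices and the number of the `g_k`.  The same
holds for a class of polynomials which contains also the determinants with diagonally dominant
coefficients and is closed under products, powers, factors and sums of nonnegative polynomials.
-/

set_option autoImplicit false

namespace Pool.Agent.Results.MP_c2aa42_lc.AccretiveDeterminants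

open Matrix MvPolynomial H669R3.Acc

/-- `Cls m d f`: the polynomial `f` in `m` variables is in the class of deficiency `d`. -/
inductive Cls (m : ℕ) : ℕ → MvPolynomial (Fin m) ℂ → Prop
  /-- all polynomials of degree at most `d` -/
  | low {d : ℕ} {f : MvPolynomial (Fin m) ℂ} (h : f.totalDegree ≤ d) : Cls m d f
  /-- polynomials without zeros with positive coordinates -/
  | positive {f : MvPolynomial (Fin m) ℂ}
      (h : ∀ x : Fin m → ℝ, (∀ i, 0 < x i) → eval (fun i => (x i : ℂ)) f ≠ 0) : Cls m 0 f
  /-- determinants with accretive matrices in unknown coordinates -/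
  | accretive {n c D K : ℕ} (g : Fin K → MvPolynomial (Fin m) ℝ)
      (A : Fin K → Matrix (Fin n) (Fin n) ℂ) (P Q : Matrix (Fin n) (Fin n) ℂ)
      (hP : P.det ≠ 0) (hQ : Q.det ≠ 0)
      (hg : ∀ k, PosOn (g k)) (hD : ∀ k, (g k).totalDegree ≤ D)
      (hA : ∀ k, Accretive (P * A k * Q))
      (hc : Module.finrank ℂ (core fun k => P * A k * Q) ≤
        Module.finrank ℂ (core₀ g fun k => P * A k * Q) + c) : Cls m (D * c) (matPoly g A).det
  /-- determinants with diagonally dominant matrices in unknown coordinates -/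
  | dominant {n K : ℕ} (g : Fin K → MvPolynomial (Fin m) ℝ)
      (A : Fin K → Matrix (Fin n) (Fin n) ℂ) (P Q : Matrix (Fin n) (Fin n) ℂ)
      (hP : P.det ≠ 0) (hQ : Q.det ≠ 0)
      (hg : ∀ k, PosOn (g k)) (hA : ∀ k, Dominant (P * A k * Q)) : Cls m 0 (matPoly g A).det
  | mul {d d' : ℕ} {f f' : MvPolynomial (Fin m) ℂ} (h : Cls m d f) (h' : Cls m d' f') :
      Cls m (d + d') (f * f')
  | pow {d : ℕ} {f : MvPolynomial (Fin m) ℂ} (h : Cls m d f) (N : ℕ) : Cls m d (f ^ N)
  | factor {d : ℕ} {f h : MvPolynomial (Fin m) ℂ} (hh : Cls m d h) (h0 : h ≠ 0) (hf : f ∣ h) :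
      Cls m d f
  | add {d : ℕ} {f f' : MvPolynomial (Fin m) ℂ} (h : Cls m d f) (h' : Cls m d f')
      (hf : NonnegOn f) (hf' : NonnegOn f') : Cls m d (f + f')
  | mono {d d' : ℕ} {f : MvPolynomial (Fin m) ℂ} (h : Cls m d f) (hd : d ≤ d') : Cls m d' f

theorem Cls.tame {m d : ℕ} {f : MvPolynomial (Fin m) ℂ} (h : Cls m d f) : Tame d f := by
  induction h with
  | low h => exact tame_low h
  | positive h => exact tame_zero_of_forall h
  | accretive g A P Q hP hQ hg hD hA hc => exact tame_accretive g hg _ hD A hP hQ hA hc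
  | dominant g A P Q hP hQ hg hA => exact tame_dominant g hg A hP hQ hA
  | mul _ _ ih ih' => exact ih.mul ih'
  | pow _ N ih => exact ih.pow N
  | factor _ h0 hf ih => exact ih.factor h0 hf
  | add _ _ hf hf' ih ih' => exact ih.add ih' hf hf'
  | mono _ hd ih => exact ih.mono hd

/-- **Result.**  (1) The `points m d` are the points `1 + z` with `z ∈ ℕ^m`, `∑ z_i ≤ d`; there are
at most `binom (m + d) d` of them, and every `f` of the class of deficiency `d` is nonzero if and
only if it is nonzero at one of them.  (2) The determinant of a matrix polynomial `∑ g_k A_k` with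
accretive matrices in unknown coordinates is nonzero at all positive points where the determinant
of a suitable `c × c` matrix polynomial `∑ g_k B_k` with nonzero determinant is nonzero.
(3) Let `A_1, …, A_m` be `n × n` matrices which are hermitian in unknown coordinates and let `p` be
an integer vector such that `∑ p_k A_k` is positive semidefinite of corank at most `c` in these
coordinates.  Then `det (∑ x_k A_k)` is nonzero if and only if it is nonzero at one of the integer
points `p + t (1 + z)`, `∑ z_i ≤ c`, `t ≤ n`. -/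
theorem result :
    ((∀ m d : ℕ, (points m d).card ≤ (m + d).choose d) ∧
      (∀ (m d : ℕ) (x : Fin m → ℤ), x ∈ points m d ↔
        ∃ z : Fin m → ℕ, ∑ i, z i ≤ d ∧ x = fun i => 1 + (z i : ℤ)) ∧
      ∀ (m d : ℕ) (f : MvPolynomial (Fin m) ℂ), Cls m d f →
        (f ≠ 0 ↔ ∃ x ∈ points m d, eval (fun i => (x i : ℂ)) f ≠ 0)) ∧
    (∀ {m n c K : ℕ} (g : Fin K → MvPolynomial (Fin m) ℝ)
      (A : Fin K → Matrix (Fin n) (Fin n) ℂ) (P Q : Matrix (Fin n) (Fin n) ℂ),
      P.det ≠ 0 → Q.det ≠ 0 → (∀ k, PosOn (g k)) → (∀ k, Accretive (P * A k * Q)) →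
      Module.finrank ℂ (core fun k => P * A k * Q) =
        Module.finrank ℂ (core₀ g fun k => P * A k * Q) + c →
      (matPoly g A).det ≠ 0 →
      ∃ B : Fin K → Matrix (Fin c) (Fin c) ℂ, (matPoly g B).det ≠ 0 ∧
        ∀ x : Fin m → ℝ, (∀ i, 0 < x i) → eval (fun i => (x i : ℂ)) (matPoly g B).det ≠ 0 →
          eval (fun i => (x i : ℂ)) (matPoly g A).det ≠ 0) ∧
    (∀ {m n c : ℕ} (A : Fin m → Matrix (Fin n) (Fin n) ℂ) (P Q : Matrix (Fin n) (Fin n) ℂ)
      (p : Fin m → ℤ),
      P.det ≠ 0 → Q.det ≠ 0 → (∀ k, (P * A k * Q).IsHermitian) →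
      Accretive (∑ k, (p k : ℂ) • (P * A k * Q)) →
      n ≤ (∑ k, (p k : ℂ) • (P * A k * Q)).rank + c →
      ((matPoly (fun k => X k) A).det ≠ 0 ↔ ∃ z : Fin m → ℕ, ∃ t : ℕ, ∑ i, z i ≤ c ∧ t ≤ n ∧
        (∑ k, ((p k + t * (1 + z k) : ℤ) : ℂ) • A k).det ≠ 0)) := by
  refine ⟨⟨points_card, fun m d x => mem_points, fun m d f hf => ⟨fun hne => ?_, ?_⟩⟩, ?_, ?_⟩
  · obtain ⟨z, hz, hz'⟩ := hf.tame.exists_point hne
    refine ⟨fun i => 1 + (z i : ℤ), mem_points.mpr ⟨z, hz, rfl⟩, ?_⟩
    convert hz' using 3
    funext i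
    push_cast
    rfl
  · rintro ⟨x, -, hx⟩ h0
    rw [h0, map_zero] at hx
    exact hx rfl
  · intro m n c K g A P Q hP hQ hg hA hc hne
    obtain ⟨B, hB, h⟩ := reduction' g hg A hP hQ hA hc hne
    refine ⟨B, hB, fun x hx hdet => ?_⟩
    rw [H669R3.Acc.eval_det] at hdet ⊢
    exact h x hx hdet
  · intro m n c A P Q p hP hQ hA hp hc
    exact hermitian A hP hQ hA p hp hc

end Pool.Agent.Results.MP_c2aa42_lc.AccretiveDeterminants
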