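import Pool.Agent.H964R4.Line
import Pool.Agent.H964R4.Hom
import Pool.Agent.Results.MP_c2aa42_lc.SumsOfProducts

/-!
# Explicit hitting sets for nested sums of unboundedly many far terms

Polynomial size hitting sets for a class of polynomials which is closed under products, factors,
and sums of unboundedly many terms `R_i ∏_j g_j ^ e_ij` that are far from each other; sums may be
nested arbitrarily. The bases `g_j` are relatively prime and each of them is a polynomial in `k`
polynomials of degree at most `r` (for example any polynomial of degree at most `r`), the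
coefficients `R_i` are arbitrary polynomials. Two terms are far if their power products differ, up
to a common factor, in degree more than `(m - 2) ∑_i rad_i + ∑_i deg R_i`, where `m` is the number
of terms and `rad_i` the degree of the product of the bases which occur in the `i`-th term.
The class contains the sums of products of branching programs of constant width and read of
`SumsOfProducts`.

The proof: a linear relation among terms over a field of functions of one variable splits along
far classes (`sepR`, a Wronskian argument of Mason / Newman-Slater type); the generator of Shpilka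
and Volkovich with `2 k (r + 1) ^ 2` seeds keeps the bases relatively prime on a generic line
(`isCoprime_line`: Gauss' lemma, resultants and the Jacobian criterion).
-/

set_option autoImplicit false

namespace Pool.Agent.Results.MP_c2aa42_lc.FarSums

open MvPolynomial Pool.Agent.H530R2 Pool.Agent.H964R4

variable {n : ℕ}

/-- `g` is a polynomial in `k` polynomials of degree at most `r`. -/
def Simple (k r : ℕ) (g : MvPolynomial (Fin n) ℂ) : Prop :=
  ∃ (q : Fin k → MvPolynomial (Fin n) ℂ) (G : MvPolynomial (Fin k) ℂ),
    (∀ b, (q b).totalDegree ≤ r) ∧ g = aeval q G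

/-- The degree of the product of the `g_j` with `e_j ≠ 0`. -/
noncomputable def radDeg {p : ℕ} (g : Fin p → MvPolynomial (Fin n) ℂ) (e : Fin p → ℕ) : ℕ :=
  ∑ j, if e j = 0 then 0 else (g j).totalDegree

/-- The larger one of the degrees of `T / gcd (T, T')` and `T' / gcd (T, T')`, where
`T = ∏ g_j ^ e_j`, `T' = ∏ g_j ^ e'_j` and the `g_j` are relatively prime. -/
noncomputable def gap {p : ℕ} (g : Fin p → MvPolynomial (Fin n) ℂ) (e e' : Fin p → ℕ) : ℕ :=
  max (∑ j, (g j).totalDegree * (e j - e' j)) (∑ j, (g j).totalDegree * (e' j - e j))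

/-- The smallest class which contains the set `B` and all polynomials in `k` polynomials of degree
at most `r`, and is closed under products, factors, passing from a nonzero homogeneous component
to the polynomial, and the following sums of far terms: `∑_{i < m} R_i ∏_j g_j ^ e_ij`, where the
`g_j` are pairwise relatively prime nonzero polynomials in `k` polynomials of degree at most `r`,
the `R_i` are arbitrary, the terms are divided into classes (the class of the `i`-th term is
`lab i`) such that the sum of each class is in `Far`, and terms of different classes have `gap`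
more than `(m - 2) ∑_i radDeg_i + ∑_i deg R_i`. -/
inductive Far (k r : ℕ) (B : Set (MvPolynomial (Fin n) ℂ)) : MvPolynomial (Fin n) ℂ → Prop
  | base {f : MvPolynomial (Fin n) ℂ} : f ∈ B → Far k r B f
  | simple {f : MvPolynomial (Fin n) ℂ} : Simple k r f → Far k r B f
  | mul {f g : MvPolynomial (Fin n) ℂ} : Far k r B f → Far k r B g → Far k r B (f * g)
  | factor {f g : MvPolynomial (Fin n) ℂ} : f ∣ g → g ≠ 0 → Far k r B g → Far k r B f
  | component {f : MvPolynomial (Fin n) ℂ} (d : ℕ) : homogeneousComponent d f ≠ 0 →
      Far k r B (homogeneousComponent d f) → Far k r B f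
  | sum {m p : ℕ} (R : Fin m → MvPolynomial (Fin n) ℂ) (g : Fin p → MvPolynomial (Fin n) ℂ)
      (e : Fin m → Fin p → ℕ) (lab : Fin m → ℕ) :
      (∀ j, g j ≠ 0 ∧ Simple k r (g j)) → (∀ j j', j ≠ j' → IsRelPrime (g j) (g j')) →
      (∀ i i', lab i ≠ lab i' →
        (m - 2) * ∑ i, radDeg g (e i) + ∑ i, (R i).totalDegree < gap g (e i) (e i')) →
      (∀ l, Far k r B (∑ i with lab i = l, R i * ∏ j, g j ^ e i j)) →
      Far k r B (∑ i, R i * ∏ j, g j ^ e i j)

/-- The point with seeds `y, z ∈ ℕ^m`: its `i`-th coordinate is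
`∑_l y_l ∏_{k ≠ i} (z_l - k)` (the Shpilka–Volkovich generator with nodes `0, …, n-1`). -/
def point (n m : ℕ) (y z : Fin m → ℕ) : Fin n → ℤ :=
  fun i => ∑ l : Fin m, (y l : ℤ) * ∏ k ∈ Finset.univ.erase i, ((z l : ℤ) - (k.val : ℤ))

/-- The explicit set of all points with seeds `y ∈ {0,…,d}^m`, `z ∈ {0,…,nd}^m`. -/
def points (n m d : ℕ) : Finset (Fin n → ℤ) :=
  ((Fintype.piFinset fun _ : Fin m => Finset.range (d + 1)) ×ˢ
    (Fintype.piFinset fun _ : Fin m => Finset.range (n * d + 1))).image
    fun yz => point n m yz.1 yz.2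

/-- The nodes. -/
def nd (n : ℕ) : Fin n → ℂ := fun i => ((i.val : ℕ) : ℂ)

theorem genI_le {m m' : ℕ} (h : m ≤ m') : genI (nd n) m' ≤ genI (nd n) m := by
  induction m', h using Nat.le_induction with
  | base => exact le_rfl
  | succ m' _ ih => exact (genI_anti _ m').trans ih

/-- The class is hit by the generator. -/
theorem Far.hit {k r v : ℕ} {B : Set (MvPolynomial (Fin n) ℂ)} (hv : N2 k r ≤ v)
    (hB : ∀ f ∈ B, f ≠ 0 → f ∉ genI (nd n) v) {f : MvPolynomial (Fin n) ℂ}
    (hf : Far k r B f) : f ≠ 0 → f ∉ genI (nd n) v := by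
  classical
  have hprime := genI_prime (nd n) v
  have hinj : Function.Injective (nd n) := nodes_injective n
  induction hf with
  | base h => exact hB _ h
  | simple h =>
    intro h0 h1
    exact gen_simp_ne hv hinj h0 h h1
  | mul _ _ ih1 ih2 =>
    intro h0 h1
    rcases hprime.mem_or_mem h1 with h2 | h2
    · exact ih1 (left_ne_zero_of_mul h0) h2
    · exact ih2 (right_ne_zero_of_mul h0) h2
  | factor hd hg _ ih =>
    intro _ h1
    exact ih hg (Ideal.mem_of_dvd _ hd h1)
  | component d hd _ ih =>
    intro _ h1
    exact ih hd (gen_component (nd n) h1 d)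
  | @sum m p R g e lab hg hgg hfar _ ih =>
    intro h0 h1
    apply h0
    have h2 : ∀ l, ∑ i with lab i = l, R i * ∏ j, g j ^ e i j = 0 := by
      intro l
      by_contra hne
      refine ih l hne ?_
      exact sep_gen hv hinj g (fun j => (hg j).1) (fun j => (hg j).2) hgg e lab R
        (fun i i' hii => lt_max_iff.1 (hfar i i' hii)) h1 l
    rw [← Finset.sum_fiberwise_of_maps_to (s := Finset.univ) (t := Finset.univ.image lab)
      (g := lab) (fun i hi => Finset.mem_image_of_mem _ hi)]
    exact Finset.sum_eq_zero fun l _ => h2 l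

/-- For all `k, r, w, D` there is `M` such that for all `n, d, s` the explicit set
`points n (M (s + 1)) d ⊆ ℤ^n` with at most `((d+1)(nd+1))^(M (s+1))` elements hits every nonzero
polynomial of total degree at most `d` in `n` variables with `Far k r (BddTr w s D k)`. -/
theorem result (k r w D : ℕ) : ∃ M : ℕ, ∀ n d s : ℕ,
    (points n (M * (s + 1)) d).card ≤ ((d + 1) * (n * d + 1)) ^ (M * (s + 1)) ∧
    (∀ p ∈ points n (M * (s + 1)) d, ∀ i,
      |p i| ≤ ((M * (s + 1) * d * (n * d + n) ^ (n - 1) : ℕ) : ℤ)) ∧
    ∀ f : MvPolynomial (Fin n) ℂ, Far k r {h | SumsOfProducts.BddTr w s D k h} f → f ≠ 0 →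
      f.totalDegree ≤ d →
      ∃ p ∈ points n (M * (s + 1)) d, MvPolynomial.eval (fun i => (p i : ℂ)) f ≠ 0 := by
  have hok : ∀ (D s n : ℕ), (stdVan _ (natInj (F := ℂ) n)).scale (s + 1) (Nat.le_add_left 1 s) ∈
      (SumsOfProducts.famD D).Ok s n := by
    intro D s n
    induction D with
    | zero => exact ⟨_, stdVan_coef _ (natInj n), rfl⟩
    | succ D ih => exact ih
  obtain ⟨m, hm⟩ := (SumsOfProducts.famD D).bddTr (hok D)
    (W := SumsOfProducts.bd w D + (SumsOfProducts.famD D).c0) (Nat.le_add_left _ _)
    k (SumsOfProducts.nc w k D)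
  refine ⟨m + N2 k r, fun n d s => ⟨hitSet_card n _ d, fun p hp i => hitSet_bound n _ d p hp i,
    ?_⟩⟩
  intro f hf hf0 hd
  refine exists_hit n _ d f hd ?_
  have h1 : N2 k r ≤ (m + N2 k r) * (s + 1) :=
    (Nat.le_add_left _ _).trans (Nat.le_mul_of_pos_right _ (Nat.succ_pos s))
  refine Far.hit h1 ?_ hf hf0
  intro h hh hh0 hmem
  have h2 : h ∈ genI (nd n) (m * (s + 1)) :=
    genI_le (Nat.mul_le_mul_right _ (Nat.le_add_right _ _)) hmem
  refine hm s n h ?_ hh0 h2
  obtain ⟨N', T, hT, hdep, hmem'⟩ := hh
  refine ⟨N', T, fun i g hg A hA => ?_, hdep, hmem'⟩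
  exact ((SumsOfProducts.abp_mem (hT i g hg)).2 A hA).mono
    ((SumsOfProducts.famD D).mono (Nat.le_add_right _ _)) le_rfl

end Pool.Agent.Results.MP_c2aa42_lc.FarSums
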