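import Mathlib
import Pool.Agent.H530R2.Gen2

/-!
# Explicit hitting sets for sums of products of formulas over branching programs

We give explicit hitting sets for sums of `κ` products of any number of factors, where every factor
is a polynomial in `w` arithmetic formulas of any size and depth whose leaves are computed by
oblivious algebraic branching programs of width `w` (or nested such programs, to constant depth),
every program reading every variable at most `w` times, in any order, and every variable occurring
in at most `w` leaves of each formula. No multilinearity is assumed. `Sums of κ products` is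
generalised to polynomials in products, of transcendence degree at most `κ`, and to factors of
products of such polynomials. For all constants the size of the hitting set is polynomial with
exponent `O(ρ + 1)`, where the rank `ρ` is the Strahler number of the formulas when only product
gates count. It is at most the logarithm of the number of leaves; hence the hitting set has always
quasi-polynomial size, and it has polynomial size for formulas of bounded rank.

This is a common generalisation of `ReadKFormulas` (one product of such factors) and of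
`SumsOfProducts` (factors computed by single programs). The test is blackbox, in contrast to the
one of `MP_e2be99_lc.FormulasOverPrograms`. The theorem is contained in the unused generality of
`Pool.Agent.H530R2.rank_hit2` of the starting repository, whose authors deserve the credit; the
translation from circuits to that theorem is the one of `ReadKFormulas`.

The proof of `rank_hit2`: by induction on the number of reads and on the rank, values of formulas
are hit; descending along a path whose siblings have smaller rank or do not depend on the variables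
read for the last time, one finds a variable such that the derivative of the value is a product of
values of formulas of smaller rank and of a minor of formulas with fewer reads. The minors of the
derivatives of boundedly many formulas are hit by an induction on the number of reads, and the
local-to-global principle for the algebraic independence of products
(`Pool.Agent.H626R2.Loc`) passes from the factors to the sums of products.
-/

namespace Pool.Agent.Results.MP_c2aa42_lc.SumsOfFormulaProducts

open MvPolynomial

/-- Formulas in `n` variables: the leaves are polynomials, a gate computes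
`c₀ + c₁ a + c₂ b + c₃ a b` from the values `a`, `b` of its arguments (in particular `a + b`,
`a - b` and `a b`). -/
inductive Formula (n : ℕ) : Type
  | leaf (g : MvPolynomial (Fin n) ℂ) : Formula n
  | gate (c₀ c₁ c₂ c₃ : ℂ) (a b : Formula n) : Formula n

variable {n : ℕ}

/-- the polynomial computed by a formula -/
noncomputable def Formula.value : Formula n → MvPolynomial (Fin n) ℂ
  | .leaf g => g
  | .gate c₀ c₁ c₂ c₃ a b => C c₀ + C c₁ * a.value + C c₂ * b.value + C c₃ * (a.value * b.value)

open Classical in
/-- the number of leaves in which the variable `x` occurs -/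
noncomputable def Formula.reads : Formula n → Fin n → ℕ
  | .leaf g, x => if x ∈ g.vars then 1 else 0
  | .gate _ _ _ _ a b, x => a.reads x + b.reads x

/-- all leaves have the property `L` -/
def Formula.Leaves (L : MvPolynomial (Fin n) ℂ → Prop) : Formula n → Prop
  | .leaf g => L g
  | .gate _ _ _ _ a b => a.Leaves L ∧ b.Leaves L

/-- the number of leaves -/
def Formula.size : Formula n → ℕ
  | .leaf _ => 1
  | .gate _ _ _ _ a b => a.size + b.size

open Classical in
/-- The rank of a formula: `0` for leaves. At a gate with `c₃ = 0` it is the maximum of the ranks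
of the arguments. At a gate with `c₃ ≠ 0` it is this maximum if the ranks of the arguments are
different, and it is larger by one if they are equal. -/
noncomputable def Formula.rank : Formula n → ℕ
  | .leaf _ => 0
  | .gate _ _ _ c₃ a b =>
    if c₃ ≠ 0 ∧ a.rank = b.rank then a.rank + 1 else max a.rank b.rank

/-- The contents of `u` registers after `b` steps. The registers start with the constants `c₀`;
step `b` multiplies the vector of the contents by the matrix `M b`. -/
noncomputable def contents {n u : ℕ} (c₀ : Fin u → ℂ)
    (M : ℕ → Matrix (Fin u) (Fin u) (MvPolynomial (Fin n) ℂ)) : ℕ → Fin u → MvPolynomial (Fin n) ℂ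
  | 0 => fun j => C (c₀ j)
  | b + 1 => Matrix.vecMul (contents c₀ M b) (M b)

/-- `Abp w s D f`: the polynomial `f` is computed with depth `D`.
* Depth `0` (leaves): univariate polynomials, and polynomials which have at most `2 ^ s` monomials
  or all of whose monomials involve at most `s` variables, and in which every variable occurs with
  at most `w` different exponents (for instance those of degree less than `w` in each variable).
* `program` (depth `D + 1`): a polynomial `P` in the contents of the at most `w` registers of a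
  linear program of any length `R`, whose matrices have entries of depth `D`, where every variable
  occurs in at most `w` of the matrices `M 0, …, M (R - 1)`. -/
inductive Abp {n : ℕ} (w s : ℕ) : ℕ → MvPolynomial (Fin n) ℂ → Prop
  | univariate (p : Polynomial ℂ) (i : Fin n) : Abp w s 0 (Polynomial.aeval (X i) p)
  | leaf {f : MvPolynomial (Fin n) ℂ} :
      (f.support.card ≤ 2 ^ s ∨ ∀ a ∈ f.support, a.support.card ≤ s) →
      (∀ i, (f.support.image fun a => a i).card ≤ w) → Abp w s 0 f
  | program {D u : ℕ} (c₀ : Fin u → ℂ)
      (M : ℕ → Matrix (Fin u) (Fin u) (MvPolynomial (Fin n) ℂ)) (R : ℕ)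
      (P : MvPolynomial (Fin u) ℂ) : u ≤ w →
      (∀ x, ((Finset.range R).filter fun b => ∃ i j, x ∈ (M b i j).vars).card ≤ w) →
      (∀ b i j, Abp w s D (M b i j)) → Abp w s (D + 1) (aeval (contents c₀ M R) P)

/-- a polynomial in `w` formulas of rank at most `t` over leaves of depth `D`, where every variable
occurs in at most `w` leaves of each formula -/
def Composite (w s D t : ℕ) (g : MvPolynomial (Fin n) ℂ) : Prop :=
  ∃ (E : Fin w → Formula n) (P : MvPolynomial (Fin w) ℂ),
    (∀ i, (E i).Leaves (Abp w s D) ∧ (∀ x, (E i).reads x ≤ w) ∧ (E i).rank ≤ t) ∧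
      g = aeval (fun i => (E i).value) P

/-- a polynomial in finitely many products of any number of members of `Composite w s D t`, no
`κ + 1` of which are algebraically independent; for instance a sum of `κ` such products -/
def Sums (w s D t κ : ℕ) (f : MvPolynomial (Fin n) ℂ) : Prop :=
  ∃ (N : ℕ) (T : Fin N → Multiset (MvPolynomial (Fin n) ℂ)),
    (∀ i, ∀ g ∈ T i, Composite w s D t g) ∧
    (∀ u : Fin (κ + 1) → Fin N, ¬ AlgebraicIndependent ℂ (fun a => (T (u a)).prod)) ∧
    f ∈ Algebra.adjoin ℂ (Set.range fun i => (T i).prod)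

/-- The point with seeds `y, z ∈ ℕ^m`: its `i`-th coordinate is
`∑_l y_l ∏_{k ≠ i} (z_l - k)` (the Shpilka–Volkovich generator with nodes `0, …, n-1`). -/
def point (n m : ℕ) (y z : Fin m → ℕ) : Fin n → ℤ :=
  fun i => ∑ l : Fin m, (y l : ℤ) * ∏ k ∈ Finset.univ.erase i, ((z l : ℤ) - (k.val : ℤ))

/-- The explicit set of all points with seeds `y ∈ {0,…,d}^m`, `z ∈ {0,…,nd}^m`. -/
def points (n m d : ℕ) : Finset (Fin n → ℤ) :=
  ((Fintype.piFinset fun _ : Fin m => Finset.range (d + 1)) ×ˢ
    (Fintype.piFinset fun _ : Fin m => Finset.range (n * d + 1))).image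
    fun yz => point n m yz.1 yz.2

/-- The oblivious branching program `u ⬝ M_0(x_{a 0}) M_1(x_{a 1}) ⋯ M_{l-1}(x_{a (l-1)}) ⬝ v` of
width `w`, with matrices of univariate polynomials, which reads the variables in the order
`a 0, a 1, …, a (l-1)`. -/
noncomputable def oblivious {n w l : ℕ} (a : Fin l → Fin n)
    (M : Fin l → Matrix (Fin w) (Fin w) (Polynomial ℂ)) (u v : Fin w → ℂ) :
    MvPolynomial (Fin n) ℂ :=
  ∑ i, ∑ j, C (u i) * (List.ofFn fun t : Fin l =>
    (M t).map (Polynomial.aeval (X (a t) : MvPolynomial (Fin n) ℂ))).prod i j * C (v j)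

open Pool.Agent.H530R2

/-- the families of classes -/
noncomputable def famD : ℕ → Fam ℂ
  | 0 => baseFam ℂ
  | D + 1 => (famD D).next

/-- the parameter of the classes -/
noncomputable def bd (w : ℕ) : ℕ → ℕ
  | 0 => 1
  | D + 1 => bd w D + w * w + w

/-- the number of coefficients -/
def nc (w k : ℕ) : ℕ → ℕ
  | 0 => (w + 1) ^ k
  | D + 1 => (k * w) * (w * w + w * w * nc w k D) + w * w

theorem contents_eq {n u : ℕ} (c₀ : Fin u → ℂ)
    (M : ℕ → Matrix (Fin u) (Fin u) (MvPolynomial (Fin n) ℂ)) (b : ℕ) :
    contents c₀ M b = lin (fun j => C (c₀ j)) M b := by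
  induction b with
  | zero => rfl
  | succ b ih => simp only [contents, lin, ih]

theorem abp_mem {n w s D k : ℕ} {f : MvPolynomial (Fin n) ℂ} (h : Abp w s D f) :
    f ∈ (famD D).K s n (bd w D) ∧
      ∀ A : Finset (Fin n), A.card ≤ k → Gn ((famD D).K s n (bd w D)) A (nc w k D) f := by
  classical
  have hsub : ∀ g : MvPolynomial (Fin n) ℂ, LS (s + 1) 1 g → g ∈ (famD 0).K s n (bd w 0) :=
    fun g hg => Pol.single le_rfl hg
  induction h with
  | univariate p i =>
    have hs : ∀ x ∈ (Polynomial.aeval (X i : MvPolynomial (Fin n) ℂ) p).support,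
        x.support ⊆ {i} := by
      intro x hx
      rw [Polynomial.aeval_eq_sum_range] at hx
      obtain ⟨e, _, he⟩ := Finset.mem_biUnion.1 (support_sum hx)
      have h1 := support_smul he
      rw [X_pow_eq_monomial] at h1
      rw [Finset.mem_singleton.1 (support_monomial_subset h1)]
      exact Finsupp.support_single_subset
    have hLS : LS (s + 1) 1 (Polynomial.aeval (X i : MvPolynomial (Fin n) ℂ) p) := by
      refine ⟨{0}, by rw [Finset.card_singleton]; exact Nat.one_le_two_pow, fun x hx =>
        ⟨0, Finset.mem_singleton_self _, x, (zero_add x).symm, ?_⟩⟩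
      refine (Finset.card_le_card (hs x hx)).trans ?_
      rw [Finset.card_singleton]
      omega
    refine ⟨hsub _ hLS, fun A hA => ?_⟩
    have hsupp : Polynomial.aeval (X i : MvPolynomial (Fin n) ℂ) p ∈
        supported ℂ ({i} : Set (Fin n)) := by
      rw [mem_supported]
      intro x hx
      obtain ⟨e, he, hxe⟩ := mem_vars x |>.1 (Finset.mem_coe.1 hx)
      exact Finset.mem_singleton.1 (hs e he hxe)
    by_cases hi : i ∈ A
    · exact Gn.supp (supported_mono (by
        rintro x rfl
        exact Finset.mem_coe.2 hi) hsupp)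
    · refine Gn.self (hsub _ hLS) (supported_mono ?_ hsupp) ?_
      · rintro x rfl
        exact hi
      · exact Nat.one_le_pow _ _ (Nat.succ_pos w)
  | @leaf f hf hw =>
    have hLS : LS (s + 1) 1 f := by
      rcases hf with hf | hf
      · refine ⟨f.support, ?_, fun x hx => ⟨x, hx, 0, (add_zero x).symm, by simp⟩⟩
        exact hf.trans (Nat.pow_le_pow_right (by omega) (by omega))
      · refine ⟨{0}, by rw [Finset.card_singleton]; exact Nat.one_le_two_pow, fun x hx =>
          ⟨0, Finset.mem_singleton_self _, x, (zero_add x).symm, ?_⟩⟩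
        have := hf x hx
        omega
    refine ⟨hsub _ hLS, fun A hA => ?_⟩
    exact (leaf_gn hLS hw hA).mono (fun g hg => hsub g hg) le_rfl
  | @program D u c₀ M R P hu hocc _ ih =>
    have hmv : ∀ b x, x ∈ mv (M b) ↔ ∃ i j, x ∈ (M b i j).vars := fun b x => mem_mv
    have hκ : ∀ x, ((Finset.range R).filter fun b => x ∈ mv (M b)).card ≤ w := by
      intro x
      simp only [hmv]
      convert hocc x
    have huu : u * u ≤ w * w := Nat.mul_le_mul hu hu
    have hc : ∀ i, ∃ y, (fun j => C (c₀ j) : Fin u → MvPolynomial (Fin n) ℂ) i = C y :=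
      fun i => ⟨c₀ i, rfl⟩
    have hbd : 1 ≤ bd w D := by
      clear * -
      induction D with
      | zero => exact le_rfl
      | succ D ih => simp only [bd]; omega
    have hf : aeval (contents c₀ M R) P ∈
        Algebra.adjoin ℂ (Set.range (lin (fun j => C (c₀ j)) M R)) := by
      rw [contents_eq, Algebra.adjoin_range_eq_range_aeval]
      exact ⟨P, rfl⟩
    constructor
    · exact lin_out (κ := w) hc (fun b i j => (ih b i j).1) R hκ
        (by simp only [bd]; omega) (by simp only [bd]; omega) (by simp only [bd]; omega) hf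
    · intro A hA
      refine (Gn.lin (k := k) (κ := w) (W' := bd w (D + 1)) hc (fun b i j => (ih b i j).1) R hκ
        (by simp only [bd]; omega) (by simp only [bd]; omega) (by simp only [bd]; omega)
        (by simp only [bd]; omega) hA (fun b i j => (ih b i j).2 A hA) hf).mono
        (fun g hg => hg) ?_
      simp only [nc]
      exact Nat.add_le_add (Nat.mul_le_mul_left _
        (Nat.add_le_add huu (Nat.mul_le_mul_right _ huu))) huu

theorem oblivious_mem {n w k l : ℕ} (a : Fin l → Fin n)
    (ha : ∀ i, (Finset.univ.filter fun t => a t = i).card ≤ k)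
    (M : Fin l → Matrix (Fin w) (Fin w) (Polynomial ℂ)) (u v : Fin w → ℂ) :
    Abp (w + k) 0 1 (oblivious a M u v) := by
  classical
  set N : ℕ → Matrix (Fin w) (Fin w) (MvPolynomial (Fin n) ℂ) :=
    fun b => if h : b < l then (M ⟨b, h⟩).map
      (Polynomial.aeval (X (a ⟨b, h⟩) : MvPolynomial (Fin n) ℂ)) else 0 with hN
  have key : ∀ b : ℕ, ∀ hb : b ≤ l, ∀ j, contents u N b j =
      ∑ i, C (u i) * (List.ofFn fun t : Fin b => (M (Fin.castLE hb t)).map
        (Polynomial.aeval (X (a (Fin.castLE hb t)) : MvPolynomial (Fin n) ℂ))).prod i j := by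
    intro b
    induction b with
    | zero =>
      intro _ j
      simp only [contents, List.ofFn_zero, List.prod_nil, Matrix.one_apply]
      rw [Finset.sum_eq_single j]
      · rw [if_pos rfl, mul_one]
      · intro i _ hij
        rw [if_neg hij, mul_zero]
      · intro h
        exact absurd (Finset.mem_univ j) h
    | succ b ih =>
      intro hb j
      have hb' : b < l := hb
      have h1 : contents u N (b + 1) j = ∑ q, contents u N b q *
          Polynomial.aeval (X (a ⟨b, hb'⟩) : MvPolynomial (Fin n) ℂ) (M ⟨b, hb'⟩ q j) := by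
        simp only [contents, Matrix.vecMul, dotProduct, hN, dif_pos hb', Matrix.map_apply]
      rw [h1]
      simp only [ih (by omega : b ≤ l)]
      simp only [List.ofFn_succ', List.concat_eq_append, List.prod_append, List.prod_singleton,
        Matrix.mul_apply, Finset.mul_sum, Finset.sum_mul]
      rw [Finset.sum_comm]
      apply Finset.sum_congr rfl
      intro i _
      apply Finset.sum_congr rfl
      intro q _
      rw [mul_assoc]
      rfl
  have h2 : oblivious a M u v =
      aeval (contents u N l) (∑ j, X j * C (v j) : MvPolynomial (Fin w) ℂ) := by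
    rw [map_sum]
    unfold oblivious
    rw [Finset.sum_comm]
    apply Finset.sum_congr rfl
    intro j _
    rw [map_mul, aeval_X, key l le_rfl j, Finset.sum_mul]
    apply Finset.sum_congr rfl
    intro i _
    simp only [algHom_C]
    rfl
  have hvars : ∀ b i j, ∀ x ∈ (N b i j).vars, ∃ h : b < l, x = a ⟨b, h⟩ := by
    intro b i j x hx
    by_cases h : b < l
    · refine ⟨h, ?_⟩
      have h3 : N b i j ∈ supported ℂ ({a ⟨b, h⟩} : Set (Fin n)) := by
        simp only [hN, dif_pos h, Matrix.map_apply]
        rw [Polynomial.aeval_eq_sum_range]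
        refine Subalgebra.sum_mem _ fun e _ => Subalgebra.smul_mem _ (Subalgebra.pow_mem _ ?_ _) _
        exact X_mem_supported.2 rfl
      exact mem_supported.1 h3 (Finset.mem_coe.2 hx)
    · simp only [hN, dif_neg h, Matrix.zero_apply] at hx
      simp at hx
  rw [h2]
  refine Abp.program u N l _ (by omega) ?_ ?_
  · intro x
    refine le_trans ?_ ((ha x).trans (show k ≤ w + k by omega))
    refine le_trans (Finset.card_le_card (t := (Finset.univ.filter fun t => a t = x).image
      (fun t : Fin l => (t : ℕ))) ?_) Finset.card_image_le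
    intro b hb
    rw [Finset.mem_filter, Finset.mem_range] at hb
    obtain ⟨hb1, i, j, hij⟩ := hb
    obtain ⟨h, hx⟩ := hvars b i j x hij
    exact Finset.mem_image.2 ⟨⟨b, hb1⟩, Finset.mem_filter.2 ⟨Finset.mem_univ _, hx.symm⟩, rfl⟩
  · intro b i j
    by_cases h : b < l
    · simp only [hN, dif_pos h, Matrix.map_apply]
      exact Abp.univariate _ _
    · simp only [hN, dif_neg h, Matrix.zero_apply]
      exact Abp.leaf (Or.inl (by simp)) (fun i => by simp)

theorem abp_lift {n w s D : ℕ} (hw : 1 ≤ w) {f : MvPolynomial (Fin n) ℂ} (h : Abp w s D f) :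
    Abp w s (D + 1) f := by
  have h1 := Abp.program (w := w) (s := s) (D := D) (u := 1) (fun _ => 1) (fun _ => fun _ _ => f) 1
    (X 0) hw ?_ (fun _ _ _ => h)
  · have h2 : aeval (contents (fun _ : Fin 1 => (1 : ℂ)) (fun _ => fun _ _ => f) 1)
        (X 0 : MvPolynomial (Fin 1) ℂ) = f := by
      rw [aeval_X]
      show ∑ j : Fin 1, C (1 : ℂ) * f = f
      rw [Fin.sum_univ_one, C_1, one_mul]
    rwa [h2] at h1
  · intro x
    refine (Finset.card_filter_le _ _).trans ?_
    rw [Finset.card_range]
    exact hw

/-- the leaves as a class: their coefficients with respect to few variables are generated by few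
members of the family -/
def LfD (w s D κ : ℕ) : Set (MvPolynomial (Fin n) ℂ) :=
  {g | g ∈ (famD D).K s n (bd w D + (famD D).c0) ∧ ∀ A : Finset (Fin n), A.card ≤ κ →
    Gn ((famD D).K s n (bd w D + (famD D).c0)) A (nc w κ D) g}

theorem LfD.const {w s D κ : ℕ} (y : ℂ) : (C y : MvPolynomial (Fin n) ℂ) ∈ LfD w s D κ :=
  ⟨(famD D).const (Nat.le_add_left _ _) y, fun A _ => Gn.supp (Subalgebra.algebraMap_mem _ y)⟩

theorem abp_lf {w s D κ : ℕ} {g : MvPolynomial (Fin n) ℂ} (h : Abp w s D g) :
    g ∈ LfD w s D κ := by
  obtain ⟨h1, h2⟩ := abp_mem (k := κ) h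
  exact ⟨(famD D).mono (Nat.le_add_right _ _) h1, fun A hA =>
    (h2 A hA).mono ((famD D).mono (Nat.le_add_right _ _)) le_rfl⟩

theorem std_famD (D : ℕ) (n s : ℕ) :
    (stdVan (F := ℂ) _ (natInj n)).scale (s + 1) (Nat.le_add_left 1 s) ∈ (famD D).Ok s n := by
  induction D with
  | zero => exact std_ok n s
  | succ D ih => exact ih

/-- translation to the formulas of `Pool.Agent.H530R2` -/
noncomputable def toTr : Formula n → Tr ℂ n
  | .leaf g => .leaf g
  | .gate c₀ c₁ c₂ c₃ a b =>
    .gate (C c₀ + C c₁ * X 0 + C c₂ * X 1 + C c₃ * (X 0 * X 1)) (toTr a) (toTr b)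

theorem toTr_val (E : Formula n) : (toTr E).val = E.value := by
  induction E with
  | leaf g => rfl
  | gate c₀ c₁ c₂ c₃ a b iha ihb =>
    simp only [toTr, Tr.val, Formula.value, map_add, map_mul, algHom_C, aeval_X, iha, ihb]
    rfl

theorem toTr_occ (E : Formula n) (x : Fin n) : (toTr E).occ x = E.reads x := by
  induction E with
  | leaf g => simp only [toTr, Tr.occ, Formula.reads]
  | gate c₀ c₁ c₂ c₃ a b iha ihb => simp only [toTr, Tr.occ, Formula.reads, iha, ihb]

theorem toTr_ml (E : Formula n) : (toTr E).ML := by
  induction E with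
  | leaf g => trivial
  | gate c₀ c₁ c₂ c₃ a b iha ihb => exact ⟨iha, ihb, c₀, c₁, c₂, c₃, rfl⟩

theorem toTr_rk (E : Formula n) : (toTr E).rk = E.rank := by
  classical
  induction E with
  | leaf g => rfl
  | gate c₀ c₁ c₂ c₃ a b iha ihb =>
    simp only [toTr, Tr.rk, Formula.rank, cpr_affine, iha, ihb, stf]
    by_cases h : c₃ = 0
    · rw [if_pos h, if_neg (fun hc => hc.1 h)]
    · rw [if_neg h]
      by_cases h' : a.rank = b.rank
      · rw [if_pos h', if_pos ⟨h, h'⟩]
      · rw [if_neg h', if_neg (fun hc => h' hc.2)]

theorem toTr_lv {w s D κ : ℕ} (E : Formula n) (h : E.Leaves (Abp w s D)) :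
    (toTr E).Lv (LfD w s D κ) := by
  induction E with
  | leaf g => exact abp_lf h
  | gate c₀ c₁ c₂ c₃ a b iha ihb => exact ⟨iha h.1, ihb h.2⟩

theorem two_pow_rank (E : Formula n) : 2 ^ E.rank ≤ E.size := by
  classical
  induction E with
  | leaf g => exact le_rfl
  | gate c₀ c₁ c₂ c₃ a b iha ihb =>
    simp only [Formula.rank, Formula.size]
    split_ifs with h
    · rw [pow_succ]
      have h1 := h.2
      rw [← h1] at ihb
      omega
    · rcases le_total a.rank b.rank with h1 | h1
      · rw [max_eq_right h1]
        omega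
      · rw [max_eq_left h1]
        omega

theorem comp_polyIn {w s D t κ : ℕ} {g : MvPolynomial (Fin n) ℂ} (h : Composite w s D t g) :
    PolyIn (fun T : Tr ℂ n => T.ML ∧ T.Lv (LfD w s D κ) ∧ (∀ i, T.occ i ≤ w + 1) ∧
      T.rk ≤ t) w g := by
  obtain ⟨E, P, hE, rfl⟩ := h
  refine ⟨fun i => toTr (E i), P, fun i => ⟨toTr_ml _, toTr_lv _ (hE i).1, fun x => ?_, ?_⟩, ?_⟩
  · rw [toTr_occ]
    exact ((hE i).2.1 x).trans (Nat.le_succ w)
  · rw [toTr_rk]
    exact (hE i).2.2
  · congr 1
    congr 1
    funext i
    exact (toTr_val _).symm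

theorem comp_formula {w s D t : ℕ} (hw : 1 ≤ w) (E : Formula n) (hE : E.Leaves (Abp w s D))
    (h : ∀ x, E.reads x ≤ w) (ht : E.rank ≤ t) : Composite w s D t E.value :=
  ⟨fun _ => E, X ⟨0, hw⟩, fun _ => ⟨hE, h, ht⟩, by rw [aeval_X]⟩

/-- sums of `κ` products -/
theorem sums_of_products {w s D t κ : ℕ} (T : Fin κ → Multiset (MvPolynomial (Fin n) ℂ))
    (hT : ∀ i, ∀ g ∈ T i, Composite w s D t g) : Sums w s D t κ (∑ i, (T i).prod) := by
  refine ⟨κ, T, hT, ?_, Subalgebra.sum_mem _ fun i _ => Algebra.subset_adjoin ⟨i, rfl⟩⟩
  intro u hu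
  have h1 : Function.Injective u := by
    intro a b hab
    exact hu.injective (by
      show (T (u a)).prod = (T (u b)).prod
      rw [hab])
  have h2 := Fintype.card_le_of_injective u h1
  rw [Fintype.card_fin, Fintype.card_fin] at h2
  omega

/-- For all bounds `w, D, κ` there is `m` such that for all `n, d, s, t` the explicit set
`points n (m (t + 1) (s + 1)) d ⊆ ℤ^n` with at most `((d+1)(nd+1))^(m (t+1) (s+1))` elements hits
every polynomial of total degree at most `d` in `n` variables that divides a product of nonzero
members of `Sums w s D t κ`. This class contains all sums of `κ` products of members of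
`Composite w s D t`; the class `Composite w s D t` contains the values of all formulas of rank at
most `t` over leaves of depth `D` where every variable occurs in at most `w` leaves; the rank is at
most the logarithm of the number of leaves; and oblivious branching programs of constant width which
read every variable boundedly often, in any order, have depth `1`. -/
theorem result :
    (∀ w D κ : ℕ, ∃ m : ℕ, ∀ n d s t : ℕ,
      (points n (m * (t + 1) * (s + 1)) d).card ≤
        ((d + 1) * (n * d + 1)) ^ (m * (t + 1) * (s + 1)) ∧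
      (∀ p ∈ points n (m * (t + 1) * (s + 1)) d, ∀ i,
        |p i| ≤ ((m * (t + 1) * (s + 1) * d * (n * d + n) ^ (n - 1) : ℕ) : ℤ)) ∧
      ∀ (f : MvPolynomial (Fin n) ℂ) (N : ℕ) (F : Fin N → MvPolynomial (Fin n) ℂ),
        (∀ j, Sums w s D t κ (F j)) → (∀ j, F j ≠ 0) → f ∣ ∏ j, F j → f.totalDegree ≤ d →
        ∃ p ∈ points n (m * (t + 1) * (s + 1)) d,
          MvPolynomial.eval (fun i => (p i : ℂ)) f ≠ 0) ∧
    (∀ (n w s D t κ : ℕ) (T : Fin κ → Multiset (MvPolynomial (Fin n) ℂ)),
      (∀ i, ∀ g ∈ T i, Composite w s D t g) → Sums w s D t κ (∑ i, (T i).prod)) ∧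
    (∀ (n w s D t : ℕ) (E : Formula n), 1 ≤ w → E.Leaves (Abp w s D) →
      (∀ x, E.reads x ≤ w) → E.rank ≤ t → Composite w s D t E.value) ∧
    (∀ (n : ℕ) (E : Formula n), 2 ^ E.rank ≤ E.size) ∧
    (∀ (n w r l : ℕ) (a : Fin l → Fin n) (M : Fin l → Matrix (Fin w) (Fin w) (Polynomial ℂ))
      (u v : Fin w → ℂ), (∀ i, (Finset.univ.filter fun t => a t = i).card ≤ r) →
      Abp (w + r) 0 1 (oblivious a M u v)) ∧
    ∀ (n w s D : ℕ) (f : MvPolynomial (Fin n) ℂ), 1 ≤ w → Abp w s D f → Abp w s (D + 1) f := by
  refine ⟨?_, fun n w s D t κ T hT => sums_of_products T hT,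
    fun n w s D t E hw hE h ht => comp_formula hw E hE h ht,
    fun n E => two_pow_rank E, fun n w r l a M u v ha => oblivious_mem a ha M u v,
    fun n w s D f hw h => abp_lift hw h⟩
  intro w D κ
  obtain ⟨m, hm⟩ := rank_hit2 (F := ℂ) (famD D) (std_famD D) κ (w + 1) w (nc w κ D)
    (bd w D + (famD D).c0) (Nat.succ_pos w)
  refine ⟨m, fun n d s t => ⟨hitSet_card n _ d, fun p hp i => hitSet_bound n _ d p hp i, ?_⟩⟩
  intro f N F hF hF0 hdvd hd
  refine exists_hit n _ d f hd ?_
  intro hf
  have h1 := Ideal.mem_of_dvd _ hdvd hf
  have hprime := genI_prime (fun i : Fin n => ((i.val : ℕ) : ℂ)) (m * (t + 1) * (s + 1))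
  rw [Ideal.IsPrime.prod_mem_iff] at h1
  obtain ⟨j, _, h1⟩ := h1
  refine hm n s t (LfD w s D κ) (fun g hg => hg.1) (fun y => LfD.const y)
    (fun A hA g hg => hg.2 A hA) (F j) ?_ (hF0 j) h1
  obtain ⟨N', T, hT, hdep, hmem⟩ := hF j
  exact ⟨N', T, fun i g hg => comp_polyIn (hT i g hg), hdep, hmem⟩

end Pool.Agent.Results.MP_c2aa42_lc.SumsOfFormulaProducts
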