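import Mathlib

set_option autoImplicit false

namespace Pool.Agent.Results.MP_c2aa42_lc.SymmetricUpdates

open Finset

/-- The weight of an exponent vector. -/
def wt {n : ℕ} (w : Fin n → ℕ) (a : Fin n →₀ ℕ) : ℕ := ∑ i, w i * a i

/-- The weight `w` has a unique minimizer on `S`. -/
def Uniq {n : ℕ} (w : Fin n → ℕ) (S : Finset (Fin n →₀ ℕ)) : Prop :=
  ∀ a ∈ S, ∀ b ∈ S, (∀ c ∈ S, wt w a ≤ wt w c) → wt w b = wt w a → b = a

section hit

variable {F : Type*} [Field F] {n : ℕ}

open MvPolynomial in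
lemma phi_eq (w : Fin n → ℕ) (f : MvPolynomial (Fin n) F) :
    aeval (fun i => (Polynomial.X : Polynomial F) ^ w i) f =
      ∑ m ∈ f.support, Polynomial.C (f.coeff m) * Polynomial.X ^ (wt w m) := by
  rw [aeval_def, eval₂_eq']
  refine Finset.sum_congr rfl fun m _ => ?_
  simp only [← pow_mul, Finset.prod_pow_eq_pow_sum, wt]
  rfl

open MvPolynomial in
lemma phi_ne_zero (w : Fin n → ℕ) (f : MvPolynomial (Fin n) F) (hf : f ≠ 0)
    (hu : Uniq w f.support) :
    aeval (fun i => (Polynomial.X : Polynomial F) ^ w i) f ≠ 0 := by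
  obtain ⟨a, ha, hmin⟩ := Finset.exists_min_image f.support (wt w) (support_nonempty.2 hf)
  intro h
  have h1 := congrArg (fun q => Polynomial.coeff q (wt w a)) (phi_eq w f)
  simp only [h, Polynomial.coeff_zero, Polynomial.finsetSum_coeff, Polynomial.coeff_C_mul,
    Polynomial.coeff_X_pow] at h1
  rw [Finset.sum_eq_single a] at h1
  · simp at h1
    exact (mem_support_iff.1 ha) h1.symm
  · intro b hb hba
    rw [if_neg, mul_zero]
    intro h2
    exact hba (hu a ha b hb hmin h2.symm)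
  · intro h2; exact absurd ha h2

open MvPolynomial in
lemma phi_natDegree (w : Fin n → ℕ) (W : ℕ) (hW : ∀ i, w i ≤ W) (f : MvPolynomial (Fin n) F) :
    (aeval (fun i => (Polynomial.X : Polynomial F) ^ w i) f).natDegree ≤ W * f.totalDegree := by
  rw [phi_eq]
  refine Polynomial.natDegree_sum_le_of_forall_le _ _ fun m hm => ?_
  refine (Polynomial.natDegree_C_mul_X_pow_le _ _).trans ?_
  have h1 := le_totalDegree hm
  rw [Finsupp.sum_fintype _ _ (fun _ => rfl)] at h1
  calc wt w m ≤ ∑ i, W * m i := Finset.sum_le_sum fun i _ => Nat.mul_le_mul_right _ (hW i)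
    _ = W * ∑ i, m i := by rw [Finset.mul_sum]
    _ ≤ W * f.totalDegree := Nat.mul_le_mul_left _ h1

open MvPolynomial in
lemma phi_eval (w : Fin n → ℕ) (f : MvPolynomial (Fin n) F) (t : F) :
    (aeval (fun i => (Polynomial.X : Polynomial F) ^ w i) f).eval t =
      eval (fun i => t ^ w i) f := by
  rw [phi_eq, Polynomial.eval_finsetSum, eval_eq']
  refine Finset.sum_congr rfl fun m _ => ?_
  simp only [Polynomial.eval_mul, Polynomial.eval_C, Polynomial.eval_pow, Polynomial.eval_X,
    ← pow_mul, Finset.prod_pow_eq_pow_sum, wt]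

open MvPolynomial in
/-- One good weight vector hits all divisors of products. -/
lemma hit [CharZero F] (w : Fin n → ℕ) (W D : ℕ) (hW : ∀ i, w i ≤ W)
    (A : Set (MvPolynomial (Fin n) F)) (hA : ∀ g ∈ A, g ≠ 0 ∧ Uniq w g.support)
    (g : MvPolynomial (Fin n) F) (hg : g ∈ Submonoid.closure A)
    (f : MvPolynomial (Fin n) F) (hfg : f ∣ g) (hf : f.totalDegree ≤ D) :
    ∃ t ∈ Finset.range (W * D + 1), eval (fun i => (t : F) ^ w i) f ≠ 0 := by
  have h1 : aeval (fun i => (Polynomial.X : Polynomial F) ^ w i) g ≠ 0 := by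
    refine Submonoid.closure_induction (motive := fun x _ =>
      aeval (fun i => (Polynomial.X : Polynomial F) ^ w i) x ≠ 0) ?_ ?_ ?_ hg
    · intro x hx
      exact phi_ne_zero w x (hA x hx).1 (hA x hx).2
    · simp
    · intro x y _ _ hx hy
      rw [map_mul]
      exact mul_ne_zero hx hy
  have h2 : aeval (fun i => (Polynomial.X : Polynomial F) ^ w i) f ≠ 0 := by
    obtain ⟨q, rfl⟩ := hfg
    rw [map_mul] at h1
    exact left_ne_zero_of_mul h1
  by_contra h
  push Not at h
  apply h2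
  refine Polynomial.eq_zero_of_natDegree_lt_card_of_eval_eq_zero _
    (f := fun i : Fin (W * D + 1) => ((i : ℕ) : F)) ?_ ?_ ?_
  · intro i j hij
    exact Fin.ext (Nat.cast_injective hij)
  · intro i
    rw [phi_eval]
    exact h i (Finset.mem_range.2 i.2)
  · rw [Fintype.card_fin]
    exact Nat.lt_succ_of_le ((phi_natDegree w W hW f).trans (Nat.mul_le_mul_left _ hf))

end hit

section exch

variable {F : Type*} [Field F] {k m : ℕ}

/-- `v` is supported on the first block and on `S`. -/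
def I (S : Finset (Fin m)) (v : Fin k ⊕ Fin m → F) : Prop := ∀ i, i ∉ S → v (Sum.inr i) = 0

/-- `N v` vanishes on the first block and on `S`. -/
def Z (N : Matrix (Fin k ⊕ Fin m) (Fin k ⊕ Fin m) F) (S : Finset (Fin m))
    (v : Fin k ⊕ Fin m → F) : Prop :=
  (∀ a, (N.mulVec v) (Sum.inl a) = 0) ∧ ∀ i ∈ S, (N.mulVec v) (Sum.inr i) = 0

/-- The principal submatrix of `N` on the first block and `S` is nonsingular. -/
def Feas (N : Matrix (Fin k ⊕ Fin m) (Fin k ⊕ Fin m) F) (S : Finset (Fin m)) : Prop :=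
  ∀ v : Fin k ⊕ Fin m → F, I S v → Z N S v → v = 0

lemma not_feas {N : Matrix (Fin k ⊕ Fin m) (Fin k ⊕ Fin m) F} {S : Finset (Fin m)}
    (h : ¬ Feas N S) : ∃ v : Fin k ⊕ Fin m → F, I S v ∧ Z N S v ∧ v ≠ 0 := by
  unfold Feas at h
  push Not at h
  exact h

lemma dot_one {v w : Fin k ⊕ Fin m → F} (j : Fin m) (h0 : ∀ a, v (Sum.inl a) * w (Sum.inl a) = 0)
    (h1 : ∀ l, l ≠ j → v (Sum.inr l) * w (Sum.inr l) = 0) :
    dotProduct v w = v (Sum.inr j) * w (Sum.inr j) := by
  unfold dotProduct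
  rw [Fintype.sum_sum_type, Finset.sum_eq_zero (fun a _ => h0 a), zero_add]
  exact Finset.sum_eq_single j (fun l _ hl => h1 l hl) (fun h => absurd (Finset.mem_univ j) h)

lemma dot_zero {v w : Fin k ⊕ Fin m → F} (h0 : ∀ a, v (Sum.inl a) * w (Sum.inl a) = 0)
    (h1 : ∀ l, v (Sum.inr l) * w (Sum.inr l) = 0) : dotProduct v w = 0 := by
  unfold dotProduct
  rw [Fintype.sum_sum_type, Finset.sum_eq_zero (fun a _ => h0 a),
    Finset.sum_eq_zero (fun a _ => h1 a), zero_add]

lemma beta_symm (N : Matrix (Fin k ⊕ Fin m) (Fin k ⊕ Fin m) F) (σ : F)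
    (hN : N.transpose = σ • N) (v w : Fin k ⊕ Fin m → F) :
    dotProduct v (N.mulVec w) = σ * dotProduct w (N.mulVec v) := by
  rw [Matrix.dotProduct_mulVec, ← Matrix.mulVec_transpose, hN, dotProduct_comm,
    Matrix.smul_mulVec, dotProduct_smul, smul_eq_mul]

lemma exch (N : Matrix (Fin k ⊕ Fin m) (Fin k ⊕ Fin m) F) (σ : F)
    (hN : N.transpose = σ • N) (G G' : Finset (Fin m)) (hG : Feas N G) (hG' : Feas N G')
    (i : Fin m) (hi : i ∈ G) (hi' : i ∉ G') (h1 : ¬ Feas N (G.erase i))
    (h2 : ∀ j ∈ G, j ∉ G' → j ≠ i → ¬ Feas N ((G.erase i).erase j))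
    (h3 : ∀ j ∈ G', j ∉ G → ¬ Feas N (insert j (G.erase i))) : False := by
  obtain ⟨q, hqI, hqZ, hq0⟩ := not_feas h1
  set c := (N.mulVec q) (Sum.inr i) with hc
  have hmono : ∀ z : Fin k ⊕ Fin m → F, I (G.erase i) z → I G z :=
    fun z hz j hj => hz j (fun h => hj (Finset.mem_of_mem_erase h))
  have hc0 : c ≠ 0 := by
    intro h
    apply hq0
    refine hG q (hmono q hqI) ⟨hqZ.1, fun j hj => ?_⟩
    by_cases hji : j = i
    · rw [hji]; exact h
    · exact hqZ.2 j (Finset.mem_erase.2 ⟨hji, hj⟩)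
  have hrad : ∀ z : Fin k ⊕ Fin m → F, I (G.erase i) z → Z N (G.erase i) z → ∃ lam : F, z = lam • q := by
    intro z hzI hzZ
    refine ⟨(N.mulVec z) (Sum.inr i) / c, ?_⟩
    have h := hG (z - ((N.mulVec z) (Sum.inr i) / c) • q) ?_ ⟨fun a => ?_, fun j hj => ?_⟩
    · exact sub_eq_zero.1 h
    · intro j hj
      have e1 := hmono z hzI j hj
      have e2 := hmono q hqI j hj
      simp [e1, e2]
    · rw [Matrix.mulVec_sub, Matrix.mulVec_smul]
      simp [hzZ.1 a, hqZ.1 a]
    · rw [Matrix.mulVec_sub, Matrix.mulVec_smul]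
      by_cases hji : j = i
      · subst hji
        simp only [Pi.sub_apply, Pi.smul_apply, smul_eq_mul]
        rw [← hc]
        field_simp
        ring
      · have e1 := hzZ.2 j (Finset.mem_erase.2 ⟨hji, hj⟩)
        have e2 := hqZ.2 j (Finset.mem_erase.2 ⟨hji, hj⟩)
        simp [e1, e2]
  -- coordinates of q outside G'
  have hq2 : ∀ j ∈ G, j ∉ G' → j ≠ i → q (Sum.inr j) = 0 := by
    intro j hj hj' hji
    by_contra hqj
    obtain ⟨z, hzI, hzZ, hz0⟩ := not_feas (h2 j hj hj' hji)
    have hzI' : I (G.erase i) z := fun l hl => hzI l (fun h => hl (Finset.mem_of_mem_erase h))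
    have e1 : dotProduct z (N.mulVec q) = 0 := by
      refine dot_zero (fun a => by rw [hqZ.1 a, mul_zero]) (fun l => ?_)
      by_cases hl : l ∈ G.erase i
      · rw [hqZ.2 l hl, mul_zero]
      · rw [hzI' l hl, zero_mul]
    have e2 : dotProduct q (N.mulVec z) = q (Sum.inr j) * (N.mulVec z) (Sum.inr j) := by
      refine dot_one j (fun a => by rw [hzZ.1 a, mul_zero]) (fun l hl => ?_)
      by_cases hl2 : l ∈ G.erase i
      · rw [hzZ.2 l (Finset.mem_erase.2 ⟨hl, hl2⟩), mul_zero]
      · rw [hqI l hl2, zero_mul]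
    rw [beta_symm N σ hN q z, e1, mul_zero] at e2
    have e3 : (N.mulVec z) (Sum.inr j) = 0 := (mul_eq_zero.1 e2.symm).resolve_left hqj
    have hzZ' : Z N (G.erase i) z := by
      refine ⟨hzZ.1, fun l hl => ?_⟩
      by_cases hlj : l = j
      · rw [hlj]; exact e3
      · exact hzZ.2 l (Finset.mem_erase.2 ⟨hlj, hl⟩)
    obtain ⟨lam, hlam⟩ := hrad z hzI' hzZ'
    have e4 : z (Sum.inr j) = 0 := hzI j (Finset.notMem_erase j _)
    rw [hlam] at e4
    have e5 : lam = 0 := by
      rw [Pi.smul_apply, smul_eq_mul] at e4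
      exact (mul_eq_zero.1 e4).resolve_right hqj
    exact hz0 (by rw [hlam, e5, zero_smul])
  have hq3 : ∀ j ∈ G', j ∉ G → (N.mulVec q) (Sum.inr j) = 0 := by
    intro j hj' hj
    obtain ⟨z, hzI, hzZ, hz0⟩ := not_feas (h3 j hj' hj)
    have hzZ' : Z N (G.erase i) z := ⟨hzZ.1, fun l hl => hzZ.2 l (Finset.mem_insert_of_mem hl)⟩
    have e1 : dotProduct q (N.mulVec z) = 0 := by
      refine dot_zero (fun a => by rw [hzZ.1 a, mul_zero]) (fun l => ?_)
      by_cases hl : l ∈ G.erase i
      · rw [hzZ'.2 l hl, mul_zero]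
      · rw [hqI l hl, zero_mul]
    have e2 : dotProduct z (N.mulVec q) = z (Sum.inr j) * (N.mulVec q) (Sum.inr j) := by
      refine dot_one j (fun a => by rw [hqZ.1 a, mul_zero]) (fun l hl => ?_)
      by_cases hl2 : l ∈ G.erase i
      · rw [hqZ.2 l hl2, mul_zero]
      · rw [hzI l (fun h => (Finset.mem_insert.1 h).elim hl hl2), zero_mul]
    rw [beta_symm N σ hN z q, e1, mul_zero] at e2
    by_cases hzj : z (Sum.inr j) = 0
    · have hzI' : I (G.erase i) z := by
        intro l hl
        by_cases hlj : l = j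
        · rw [hlj]; exact hzj
        · exact hzI l (fun h => (Finset.mem_insert.1 h).elim hlj hl)
      obtain ⟨lam, hlam⟩ := hrad z hzI' hzZ'
      have e4 := hzZ.2 j (Finset.mem_insert_self j _)
      rw [hlam, Matrix.mulVec_smul, Pi.smul_apply, smul_eq_mul] at e4
      rcases mul_eq_zero.1 e4 with h | h
      · exact absurd (by rw [hlam, h, zero_smul]) hz0
      · exact h
    · exact (mul_eq_zero.1 e2.symm).resolve_left hzj
  apply hq0
  refine hG' q (fun l hl => ?_) ⟨hqZ.1, fun l hl => ?_⟩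
  · by_cases h : l ∈ G.erase i
    · exact hq2 l (Finset.mem_of_mem_erase h) hl (Finset.ne_of_mem_erase h)
    · exact hqI l h
  · by_cases h : l ∈ G
    · exact hqZ.2 l (Finset.mem_erase.2 ⟨fun e => hi' (e ▸ hl), h⟩)
    · exact hq3 l hl h

end exch

section expand

variable {F : Type*} [Field F] {k m : ℕ}

/-- The bordered matrix of the set `S`. -/
def B (A : Matrix (Fin k) (Fin k) F) (u : Fin m → Fin k → F) (S : Finset (Fin m)) :
    Matrix (Fin k ⊕ Fin m) (Fin k ⊕ Fin m) F :=
  Matrix.of fun r c => match r, c with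
    | Sum.inl a, Sum.inl b => A a b
    | Sum.inl a, Sum.inr j => u j a
    | Sum.inr i, Sum.inl b => if i ∈ S then - u i b else 0
    | Sum.inr i, Sum.inr j => if i ∈ S then 0 else if i = j then 1 else 0

/-- The matrix with blocks `A`, `U`, `σ Uᵀ`, `0`. -/
def N (σ : F) (A : Matrix (Fin k) (Fin k) F) (u : Fin m → Fin k → F) :
    Matrix (Fin k ⊕ Fin m) (Fin k ⊕ Fin m) F :=
  Matrix.of fun r c => match r, c with
    | Sum.inl a, Sum.inl b => A a b
    | Sum.inl a, Sum.inr j => u j a
    | Sum.inr i, Sum.inl b => σ * u i b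
    | Sum.inr _, Sum.inr _ => 0

lemma N_transpose (σ : F) (hσ : σ * σ = 1) (A : Matrix (Fin k) (Fin k) F)
    (u : Fin m → Fin k → F) (hA : A.transpose = σ • A) :
    (N σ A u).transpose = σ • N σ A u := by
  ext r c
  rcases r with a | i <;> rcases c with b | j
  · have := congrFun (congrFun hA a) b
    simpa [N] using this
  · simp [N]
  · simp [N, ← mul_assoc, hσ]
  · simp [N]

lemma det_B_ne_zero (σ : F) (hσ : σ ≠ 0) (A : Matrix (Fin k) (Fin k) F) (u : Fin m → Fin k → F)
    (S : Finset (Fin m)) : (B A u S).det ≠ 0 ↔ Feas (N σ A u) S := by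
  rw [ne_eq, ← Matrix.exists_mulVec_eq_zero_iff, not_exists]
  have hinl : ∀ (v : Fin k ⊕ Fin m → F) a, ((B A u S).mulVec v) (Sum.inl a) =
      ((N σ A u).mulVec v) (Sum.inl a) := by
    intro v a
    simp only [Matrix.mulVec, dotProduct, Fintype.sum_sum_type, B, N, Matrix.of_apply]
  have hinr : ∀ (v : Fin k ⊕ Fin m → F) i, i ∈ S → σ * ((B A u S).mulVec v) (Sum.inr i) =
      - ((N σ A u).mulVec v) (Sum.inr i) := by
    intro v i hi
    simp only [Matrix.mulVec, dotProduct, Fintype.sum_sum_type, B, N, Matrix.of_apply, if_pos hi,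
      zero_mul, Finset.sum_const_zero, add_zero]
    rw [Finset.mul_sum, ← Finset.sum_neg_distrib]
    exact Finset.sum_congr rfl fun b _ => by ring
  have hout : ∀ (v : Fin k ⊕ Fin m → F) i, i ∉ S → ((B A u S).mulVec v) (Sum.inr i) =
      v (Sum.inr i) := by
    intro v i hi
    simp only [Matrix.mulVec, dotProduct, Fintype.sum_sum_type, B, Matrix.of_apply, if_neg hi,
      zero_mul, Finset.sum_const_zero, zero_add, ite_mul, one_mul]
    simp
  constructor
  · intro h v hvI hvZ
    by_contra hv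
    apply h v
    refine ⟨hv, ?_⟩
    funext r
    rcases r with a | i
    · rw [hinl]; exact hvZ.1 a
    · by_cases hi : i ∈ S
      · have h1 := hinr v i hi
        rw [hvZ.2 i hi, neg_zero] at h1
        exact (mul_eq_zero.1 h1).resolve_left hσ
      · rw [hout v i hi]; exact hvI i hi
  · rintro h v ⟨hv, hB⟩
    apply hv
    refine h v (fun i hi => ?_) ⟨fun a => ?_, fun i hi => ?_⟩
    · rw [← hout v i hi, hB]; rfl
    · rw [← hinl, hB]; rfl
    · have h1 := hinr v i hi
      rw [hB] at h1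
      have h2 : -((N σ A u).mulVec v) (Sum.inr i) = 0 := by rw [← h1]; simp
      exact neg_eq_zero.1 h2

/-- Expansion of the determinant in the variables. -/
lemma expand {R : Type*} [CommRing R] (φ : F →+* R) (x : Fin m → R)
    (A : Matrix (Fin k) (Fin k) F) (u : Fin m → Fin k → F) :
    (A.map φ + ∑ i, x i • (Matrix.vecMulVec (u i) (u i)).map φ).det =
      ∑ S : Finset (Fin m), (∏ i ∈ S, x i) * φ (B A u S).det := by
  classical
  let a : Fin k ⊕ Fin m → Fin k ⊕ Fin m → R := fun r c => match r, c with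
    | Sum.inl _, _ => 0
    | Sum.inr i, Sum.inl b => - φ (u i b)
    | Sum.inr _, Sum.inr _ => 0
  let c : Fin k ⊕ Fin m → R := Sum.elim (fun _ => 1) x
  let m' : Fin k ⊕ Fin m → Fin k ⊕ Fin m → R := fun r c => match r, c with
    | Sum.inl a, Sum.inl b => φ (A a b)
    | Sum.inl a, Sum.inr j => φ (u j a)
    | Sum.inr _, Sum.inl _ => 0
    | Sum.inr i, Sum.inr j => if i = j then 1 else 0
  let t : Finset (Fin k ⊕ Fin m) := Finset.univ.map ⟨Sum.inr, Sum.inr_injective⟩
  have hmem : ∀ r, r ∈ t ↔ ∃ i, r = Sum.inr i := by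
    intro r
    simp only [t, Finset.mem_map, Finset.mem_univ, true_and, Function.Embedding.coeFn_mk]
    exact ⟨fun ⟨i, h⟩ => ⟨i, h.symm⟩, fun ⟨i, h⟩ => ⟨i, h.symm⟩⟩
  have h1 : (A.map φ + ∑ i, x i • (Matrix.vecMulVec (u i) (u i)).map φ).det =
      Matrix.det (t.piecewise ((fun r => c r • a r) + m') m') := by
    have e1 : (t.piecewise ((fun r => c r • a r) + m') m' :
        Fin k ⊕ Fin m → Fin k ⊕ Fin m → R) = Matrix.fromBlocks (A.map φ)
        (Matrix.of fun a j => φ (u j a)) (Matrix.of fun i b => - (x i * φ (u i b))) 1 := by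
      funext r s
      rcases r with r | r
      · rw [Finset.piecewise_eq_of_notMem _ _ _ (fun h => by
          obtain ⟨i, hi⟩ := (hmem _).1 h; cases hi)]
        rcases s with s | s <;> simp [m']
      · rw [Finset.piecewise_eq_of_mem _ _ _ ((hmem _).2 ⟨r, rfl⟩)]
        rcases s with s | s
        · simp [m', a, c]
        · simp [m', a, c, Matrix.one_apply]
    rw [e1, Matrix.det_fromBlocks_one₂₂]
    congr 1
    ext p q
    simp only [Matrix.add_apply, Matrix.sub_apply, Matrix.mul_apply, Matrix.of_apply,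
      Matrix.sum_apply, Matrix.smul_apply, Matrix.map_apply, Matrix.vecMulVec_apply, smul_eq_mul,
      map_mul]
    rw [sub_eq_add_neg, ← Finset.sum_neg_distrib]
    congr 1
    exact Finset.sum_congr rfl fun i _ => by ring
  rw [h1]
  have h2 := (Matrix.detRowAlternating (R := R) (n := Fin k ⊕ Fin m)).toMultilinearMap.map_piecewise_add
    (fun r => c r • a r) m' t
  have h3 : Matrix.det (t.piecewise ((fun r => c r • a r) + m') m') =
      ∑ s ∈ t.powerset, Matrix.det (s.piecewise (fun r => c r • a r) m') := h2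
  rw [h3]
  symm
  refine Finset.sum_bij (fun (S : Finset (Fin m)) _ => S.map ⟨Sum.inr, Sum.inr_injective⟩) ?_ ?_ ?_ ?_
  · intro S _
    rw [Finset.mem_powerset]
    exact Finset.map_subset_map.2 (Finset.subset_univ S)
  · intro S _ S' _ h
    exact Finset.map_injective _ h
  · intro s hs
    rw [Finset.mem_powerset] at hs
    refine ⟨Finset.univ.filter (fun i => Sum.inr i ∈ s), Finset.mem_univ _, ?_⟩
    ext r
    simp only [Finset.mem_map, Finset.mem_filter, Finset.mem_univ, true_and,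
      Function.Embedding.coeFn_mk]
    constructor
    · rintro ⟨i, hi, rfl⟩; exact hi
    · intro hr
      obtain ⟨i, rfl⟩ := (hmem r).1 (hs hr)
      exact ⟨i, hr, rfl⟩
  · intro S _
    set s : Finset (Fin k ⊕ Fin m) := S.map ⟨Sum.inr, Sum.inr_injective⟩ with hs
    have hms : ∀ i : Fin m, Sum.inr i ∈ s ↔ i ∈ S := by
      intro i; rw [hs]; simp
    have hml : ∀ i : Fin k, Sum.inl i ∉ s := by
      intro i; rw [hs]; simp
    have e1 := (Matrix.detRowAlternating (R := R) (n := Fin k ⊕ Fin m)).toMultilinearMap.map_piecewise_smul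
      c (s.piecewise a m') s
    have e2 : (s.piecewise (fun r => c r • (s.piecewise a m') r) (s.piecewise a m') :
        Fin k ⊕ Fin m → Fin k ⊕ Fin m → R) = s.piecewise (fun r => c r • a r) m' := by
      funext r
      by_cases hr : r ∈ s
      · rw [Finset.piecewise_eq_of_mem _ _ _ hr, Finset.piecewise_eq_of_mem _ _ _ hr,
          Finset.piecewise_eq_of_mem _ _ _ hr]
      · rw [Finset.piecewise_eq_of_notMem _ _ _ hr, Finset.piecewise_eq_of_notMem _ _ _ hr,
          Finset.piecewise_eq_of_notMem _ _ _ hr]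
    rw [e2] at e1
    have e3 : Matrix.det (s.piecewise (fun r => c r • a r) m') =
        (∏ r ∈ s, c r) • Matrix.det (s.piecewise a m') := e1
    rw [e3, smul_eq_mul]
    congr 1
    · rw [hs, Finset.prod_map]; rfl
    · rw [RingHom.map_det]
      congr 1
      ext r q
      rcases r with r | r
      · have h4 : (s.piecewise a m' : Fin k ⊕ Fin m → Fin k ⊕ Fin m → R) (Sum.inl r) = m' (Sum.inl r) :=
          Finset.piecewise_eq_of_notMem _ _ _ (hml r)
        rw [h4]
        rcases q with q | q <;> simp [m', B]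
      · by_cases hr : r ∈ S
        · have h4 : (s.piecewise a m' : Fin k ⊕ Fin m → Fin k ⊕ Fin m → R) (Sum.inr r) = a (Sum.inr r) :=
            Finset.piecewise_eq_of_mem _ _ _ ((hms r).2 hr)
          rw [h4]
          rcases q with q | q <;> simp [a, B, hr]
        · have h4 : (s.piecewise a m' : Fin k ⊕ Fin m → Fin k ⊕ Fin m → R) (Sum.inr r) = m' (Sum.inr r) :=
            Finset.piecewise_eq_of_notMem _ _ _ (fun h => hr ((hms r).1 h))
          rw [h4]
          rcases q with q | q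
          · simp [m', B, hr]
          · by_cases hrq : r = q
            · subst hrq; simp [m', B, hr]
            · simp [m', B, hr, hrq]

end expand

section main

variable {F : Type*} [Field F] {k m : ℕ}

/-- The exponent vector of a set of variables. -/
noncomputable def ind (S : Finset (Fin m)) : Fin m →₀ ℕ :=
  Finsupp.equivFunOnFinite.symm (fun i => if i ∈ S then 1 else 0)

lemma ind_apply (S : Finset (Fin m)) (i : Fin m) : ind S i = if i ∈ S then 1 else 0 := rfl

lemma ind_inj {S S' : Finset (Fin m)} (h : ind S = ind S') : S = S' := by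
  ext i
  have h1 := DFunLike.congr_fun h i
  rw [ind_apply, ind_apply] at h1
  by_cases hi : i ∈ S <;> by_cases hi' : i ∈ S' <;> simp_all

/-- The weights `1, 2, …, m`. -/
def ramp (m : ℕ) : Fin m → ℕ := fun i => (i : ℕ) + 1

lemma wt_ind (w : Fin m → ℕ) (S : Finset (Fin m)) : wt w (ind S) = ∑ i ∈ S, w i := by
  unfold wt
  simp only [ind_apply, mul_ite, mul_one, mul_zero]
  rw [Finset.sum_ite_mem, Finset.univ_inter]

open MvPolynomial in
lemma prod_X (S : Finset (Fin m)) :
    (∏ i ∈ S, X i : MvPolynomial (Fin m) F) = monomial (ind S) 1 := by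
  rw [monomial_eq, map_one, one_mul, Finsupp.prod_fintype _ _ (fun _ => pow_zero _)]
  simp only [ind_apply, pow_ite, pow_one, pow_zero]
  rw [Finset.prod_ite_mem, Finset.univ_inter]

open MvPolynomial in
/-- The symbolic matrix `A + ∑ x_i u_i u_iᵀ`. -/
noncomputable def symb (A : Matrix (Fin k) (Fin k) F) (u : Fin m → Fin k → F) :
    Matrix (Fin k) (Fin k) (MvPolynomial (Fin m) F) :=
  A.map C + ∑ i, (X i : MvPolynomial (Fin m) F) • (Matrix.vecMulVec (u i) (u i)).map C

/-- The value of the symbolic matrix at the point `x`. -/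
def value (A : Matrix (Fin k) (Fin k) F) (u : Fin m → Fin k → F) (x : Fin m → F) :
    Matrix (Fin k) (Fin k) F :=
  A + ∑ i, x i • Matrix.vecMulVec (u i) (u i)

open MvPolynomial in
lemma det_symb (A : Matrix (Fin k) (Fin k) F) (u : Fin m → Fin k → F) :
    (symb A u).det = ∑ S : Finset (Fin m), monomial (ind S) (B A u S).det := by
  unfold symb
  have h := expand (C : F →+* MvPolynomial (Fin m) F) (fun i => X i) A u
  rw [h]
  refine Finset.sum_congr rfl fun S _ => ?_
  rw [prod_X, mul_comm, C_mul_monomial, mul_one]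

open MvPolynomial in
lemma eval_det (A : Matrix (Fin k) (Fin k) F) (u : Fin m → Fin k → F) (x : Fin m → F) :
    eval x (symb A u).det = (value A u x).det := by
  have h := expand (C : F →+* MvPolynomial (Fin m) F) (fun i => X i) A u
  have h' := expand (RingHom.id F) x A u
  have e1 : value A u x = A.map (RingHom.id F) +
      ∑ i, x i • (Matrix.vecMulVec (u i) (u i)).map (RingHom.id F) := by
    unfold value
    have e2 : ∀ M : Matrix (Fin k) (Fin k) F, M.map (RingHom.id F) = M := fun M => by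
      ext i j; rfl
    simp only [e2]
  rw [e1, h']
  unfold symb
  rw [h, map_sum]
  refine Finset.sum_congr rfl fun S _ => ?_
  rw [map_mul, map_prod]
  simp

open MvPolynomial in
lemma coeff_det (A : Matrix (Fin k) (Fin k) F) (u : Fin m → Fin k → F) (S : Finset (Fin m)) :
    coeff (ind S) (symb A u).det = (B A u S).det := by
  rw [det_symb, coeff_sum, Finset.sum_eq_single S]
  · rw [coeff_monomial, if_pos rfl]
  · intro S' _ hS
    rw [coeff_monomial, if_neg (fun h => hS (ind_inj h))]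
  · intro h; exact absurd (Finset.mem_univ S) h

open MvPolynomial in
lemma mem_support_det {A : Matrix (Fin k) (Fin k) F} {u : Fin m → Fin k → F} {a : Fin m →₀ ℕ}
    (ha : a ∈ (symb A u).det.support) : ∃ S, a = ind S ∧ (B A u S).det ≠ 0 := by
  rw [mem_support_iff, det_symb, coeff_sum] at ha
  obtain ⟨S, _, hS⟩ := Finset.exists_ne_zero_of_sum_ne_zero ha
  rw [coeff_monomial] at hS
  by_cases h : ind S = a
  · rw [if_pos h] at hS
    exact ⟨S, h.symm, hS⟩
  · rw [if_neg h] at hS
    exact absurd rfl hS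

lemma key (M : Matrix (Fin k ⊕ Fin m) (Fin k ⊕ Fin m) F) (σ : F)
    (hM : M.transpose = σ • M) (G G' : Finset (Fin m)) (hG : Feas M G) (hG' : Feas M G')
    (hmin : ∀ S, Feas M S → ∑ i ∈ G, ramp m i ≤ ∑ i ∈ S, ramp m i)
    (i : Fin m) (hi : i ∈ G) (hi' : i ∉ G') (hj : ∀ j ∈ G', j ∉ G → j < i) : False := by
  have e0 : ramp m i + ∑ l ∈ G.erase i, ramp m l = ∑ l ∈ G, ramp m l :=
    Finset.add_sum_erase G (ramp m) hi
  have hr : ∀ l, 0 < ramp m l := fun l => Nat.succ_pos _
  refine exch M σ hM G G' hG hG' i hi hi' (fun h => ?_) (fun j hjG hj' hji h => ?_)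
    (fun j hj' hjG h => ?_)
  · have := hmin _ h
    have := hr i
    omega
  · have h1 := hmin _ h
    have h2 : ramp m j + ∑ l ∈ (G.erase i).erase j, ramp m l = ∑ l ∈ G.erase i, ramp m l :=
      Finset.add_sum_erase _ (ramp m) (Finset.mem_erase.2 ⟨hji, hjG⟩)
    have := hr i
    omega
  · have h1 := hmin _ h
    rw [Finset.sum_insert (fun h => hjG (Finset.mem_of_mem_erase h))] at h1
    have h2 : ramp m j < ramp m i := by
      have := hj j hj' hjG
      unfold ramp
      have := Fin.lt_def.1 this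
      omega
    omega

open MvPolynomial in
lemma uniq_det (σ : F) (hσ : σ * σ = 1) (A : Matrix (Fin k) (Fin k) F)
    (u : Fin m → Fin k → F) (hA : A.transpose = σ • A) :
    Uniq (ramp m) (symb A u).det.support := by
  have hσ0 : σ ≠ 0 := by rintro rfl; simp at hσ
  intro a ha b hb hmin heq
  obtain ⟨G, rfl, hG⟩ := mem_support_det ha
  obtain ⟨G', rfl, hG'⟩ := mem_support_det hb
  rw [det_B_ne_zero σ hσ0] at hG hG'
  have hM := N_transpose σ hσ A u hA
  have hmin1 : ∀ S, Feas (N σ A u) S → ∑ i ∈ G, ramp m i ≤ ∑ i ∈ S, ramp m i := by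
    intro S hS
    rw [← wt_ind, ← wt_ind]
    apply hmin
    rw [mem_support_iff, coeff_det]
    exact (det_B_ne_zero σ hσ0 A u S).2 hS
  have hmin2 : ∀ S, Feas (N σ A u) S → ∑ i ∈ G', ramp m i ≤ ∑ i ∈ S, ramp m i := by
    intro S hS
    rw [← wt_ind, heq, wt_ind]
    exact hmin1 S hS
  by_contra hne
  have hne' : G' ≠ G := fun h => hne (by rw [h])
  have hnon : (symmDiff G G').Nonempty := by
    rw [Finset.nonempty_iff_ne_empty]
    intro h
    exact hne' (symmDiff_eq_bot.1 h).symm
  obtain ⟨i, hi, himax⟩ := Finset.exists_max_image (symmDiff G G') id hnon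
  rw [Finset.mem_symmDiff] at hi
  rcases hi with ⟨h1, h2⟩ | ⟨h1, h2⟩
  · refine key _ σ hM G G' hG hG' hmin1 i h1 h2 fun j hj hj' => ?_
    exact lt_of_le_of_ne (himax j (Finset.mem_symmDiff.2 (Or.inr ⟨hj, hj'⟩)))
      (fun h => hj' (h ▸ h1))
  · refine key _ σ hM G' G hG' hG hmin2 i h1 h2 fun j hj hj' => ?_
    exact lt_of_le_of_ne (himax j (Finset.mem_symmDiff.2 (Or.inl ⟨hj, hj'⟩)))
      (fun h => hj' (h ▸ h1))

lemma card_le (σ : F) (A : Matrix (Fin k) (Fin k) F) (u : Fin m → Fin k → F)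
    (S : Finset (Fin m)) (hS : Feas (N σ A u) S) : S.card ≤ k := by
  have hli : LinearIndepOn F u (S : Set (Fin m)) := by
    rw [linearIndepOn_finset_iff]
    intro g hg
    have hv := hS (Sum.elim 0 (fun i => if i ∈ S then g i else 0)) (fun i hi => by simp [hi])
      ⟨fun a => ?_, fun i _ => ?_⟩
    · intro i hi
      have := congrFun hv (Sum.inr i)
      simpa [hi] using this
    · simp only [Matrix.mulVec, dotProduct, Fintype.sum_sum_type, N, Matrix.of_apply,
        Sum.elim_inl, Sum.elim_inr, Pi.zero_apply, mul_zero, Finset.sum_const_zero, zero_add,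
        mul_ite]
      rw [Finset.sum_ite_mem, Finset.univ_inter]
      have h1 := congrFun hg a
      rw [Finset.sum_apply] at h1
      rw [← show (0 : Fin k → F) a = 0 from rfl, ← h1]
      exact Finset.sum_congr rfl fun i _ => by rw [Pi.smul_apply, smul_eq_mul, mul_comm]
    · simp [Matrix.mulVec, dotProduct, Fintype.sum_sum_type, N]
  have h1 := LinearIndependent.fintype_card_le_finrank hli
  rw [Module.finrank_fin_fun] at h1
  simpa using h1

open MvPolynomial in
lemma degree_det (σ : F) (hσ : σ ≠ 0) (A : Matrix (Fin k) (Fin k) F) (u : Fin m → Fin k → F) :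
    (symb A u).det.totalDegree ≤ k := by
  rw [totalDegree]
  refine Finset.sup_le fun a ha => ?_
  obtain ⟨S, rfl, hS⟩ := mem_support_det ha
  rw [det_B_ne_zero σ hσ] at hS
  rw [Finsupp.sum_fintype _ _ (fun _ => rfl)]
  simp only [ind_apply]
  rw [Finset.sum_ite_mem, Finset.univ_inter, Finset.sum_const, smul_eq_mul, mul_one]
  exact card_le σ A u S hS

end main

/-- `g` is the determinant of a symbolic matrix `A + ∑ x_i u_i u_iᵀ` with a symmetric or skew
symmetric matrix `A`. -/
def IsUpdate {F : Type*} [Field F] {m : ℕ} (g : MvPolynomial (Fin m) F) : Prop :=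
  ∃ (k : ℕ) (A : Matrix (Fin k) (Fin k) F) (u : Fin m → Fin k → F),
    (A.transpose = A ∨ A.transpose = - A) ∧ g = (symb A u).det

/-- **Identity testing of determinants of symmetric rank one updates of symmetric and of skew
symmetric matrices.** -/
theorem result {F : Type*} [Field F] [CharZero F] (m : ℕ) :
    (∀ (k : ℕ) (A : Matrix (Fin k) (Fin k) F) (u : Fin m → Fin k → F),
      (A.transpose = A ∨ A.transpose = - A) →
      ((∃ x : Fin m → F, (A + ∑ i, x i • Matrix.vecMulVec (u i) (u i)).det ≠ 0) ↔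
        ∃ t ≤ m * k,
          (A + ∑ i : Fin m, ((t : F) ^ ((i : ℕ) + 1)) • Matrix.vecMulVec (u i) (u i)).det ≠ 0)) ∧
    (∀ (D : ℕ), ∀ g ∈ Submonoid.closure {g : MvPolynomial (Fin m) F | g ≠ 0 ∧ IsUpdate g},
      ∀ f, f ∣ g → f.totalDegree ≤ D →
        ∃ t ≤ m * D, MvPolynomial.eval (fun i : Fin m => (t : F) ^ ((i : ℕ) + 1)) f ≠ 0) := by
  have hsig : ∀ {k : ℕ} (A : Matrix (Fin k) (Fin k) F), (A.transpose = A ∨ A.transpose = - A) →
      ∃ σ : F, σ * σ = 1 ∧ A.transpose = σ • A := by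
    intro k A hA
    rcases hA with hA | hA
    · exact ⟨1, by ring, by rw [hA, one_smul]⟩
    · exact ⟨-1, by ring, by rw [hA, neg_one_smul]⟩
  have hall : ∀ (D : ℕ), ∀ g ∈ Submonoid.closure
      {g : MvPolynomial (Fin m) F | g ≠ 0 ∧ IsUpdate g}, ∀ f, f ∣ g → f.totalDegree ≤ D →
        ∃ t ≤ m * D, MvPolynomial.eval (fun i : Fin m => (t : F) ^ ((i : ℕ) + 1)) f ≠ 0 := by
    intro D g hg f hfg hf
    have hA' : ∀ g ∈ {g : MvPolynomial (Fin m) F | g ≠ 0 ∧ IsUpdate g},
        g ≠ 0 ∧ Uniq (ramp m) g.support := by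
      rintro g ⟨hg0, k, A, u, hA, rfl⟩
      obtain ⟨σ, h1, h2⟩ := hsig A hA
      exact ⟨hg0, uniq_det σ h1 A u h2⟩
    obtain ⟨t, ht, hne⟩ := hit (ramp m) m D (fun i => i.2) _ hA' g hg f hfg hf
    exact ⟨t, by have := Finset.mem_range.1 ht; omega, hne⟩
  refine ⟨fun k A u hA => ⟨?_, ?_⟩, hall⟩
  · rintro ⟨x, hx⟩
    have h0 : (symb A u).det ≠ 0 := by
      intro h
      apply hx
      have h1 := eval_det A u x
      rw [h, map_zero] at h1
      exact h1.symm
    obtain ⟨σ, h1, h2⟩ := hsig A hA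
    have hσ0 : σ ≠ 0 := by rintro rfl; simp at h1
    obtain ⟨t, ht, hne⟩ := hall k (symb A u).det (Submonoid.subset_closure ⟨h0, k, A, u, hA, rfl⟩)
      _ dvd_rfl (degree_det σ hσ0 A u)
    refine ⟨t, ht, ?_⟩
    rw [eval_det] at hne
    exact hne
  · rintro ⟨t, _, ht⟩
    exact ⟨_, ht⟩

end Pool.Agent.Results.MP_c2aa42_lc.SymmetricUpdates
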